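import Pool.Agent.Lib.MP_2b14c6_co.Defs
import Pool.Agent.Lib.MP_2b14c6_co.Main

/-!
MP_2b14c6_co, Q1: `k(n) = 5` for every `n ≥ 5`.
-/

set_option autoImplicit false

namespace Pool.Agent.Results.MP_2b14c6_co.KEqualsFive

open Pool.Agent.Lib.MP_2b14c6_co

/-- **`k(n) = 5` for every `n ≥ 5`.**  For every `n ≥ 5` the largest integer `k` such that every
simple arrangement of `n` great circles has a face with at least `k` sides is `5`. -/
theorem result (n : ℕ) (hn : 5 ≤ n) :
    IsGreatest {k : ℕ | ∀ A : Finset (Set S2), A.card = n → IsSimpleArrangement A →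
      ∃ F : Set S2, IsFace A F ∧ (k : ℕ∞) ≤ numSides A F} 5 := by
  refine ⟨fun A hA hs => lower_bound hn A hA hs, fun k hk => ?_⟩
  obtain ⟨A, hA, hs, hF⟩ := upper_bound (n := n) (by omega)
  obtain ⟨F, hFA, hkF⟩ := hk A hA hs
  exact_mod_cast hkF.trans (hF F hFA)

end Pool.Agent.Results.MP_2b14c6_co.KEqualsFive
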